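import Mathlib

/-! # The variance of the number of coprime pairs in a random lattice square -/

set_option autoImplicit false

namespace Pool.Agent.Results.MP_143e3a_nt.VarianceBound

open Finset Filter Topology

/-- the number of coprime pairs `(a + i, b + j)` with `1 ≤ i, j ≤ M` -/
def Z (M a b : ℕ) : ℕ :=
  (((Icc 1 M) ×ˢ (Icc 1 M)).filter (fun x : ℕ × ℕ => Nat.gcd (a + x.1) (b + x.2) = 1)).card

/-- the proportion of the points `(a, b)` of `{1, …, n}²` with `Z_M(a, b) = r` -/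
noncomputable def freq (M r n : ℕ) : ℝ :=
  (((Icc 1 n ×ˢ Icc 1 n).filter (fun x : ℕ × ℕ => Z M x.1 x.2 = r)).card : ℝ) / (n : ℝ) ^ 2

/-- the variance of a random variable taking the value `r` with probability `p r`, `0 ≤ r ≤ m` -/
noncomputable def variance (m : ℕ) (p : ℕ → ℝ) : ℝ :=
  ∑ r ∈ range (m + 1), (r : ℝ) ^ 2 * p r - (∑ r ∈ range (m + 1), (r : ℝ) * p r) ^ 2

/-! ### The periodic approximation -/

/-- the number of pairs `(a + i, b + j)` whose greatest common divisor is prime to `P` -/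
def Zq (P M a b : ℕ) : ℕ :=
  (((Icc 1 M) ×ˢ (Icc 1 M)).filter
    (fun x : ℕ × ℕ => Nat.gcd (Nat.gcd (a + x.1) (b + x.2)) P = 1)).card

/-- the number of multiples of `d` among `a + 1, …, a + M` -/
noncomputable def A (M d a : ℕ) : ℝ := ∑ i ∈ Icc 1 M, if d ∣ a + i then (1 : ℝ) else 0

theorem sum_moebius (P g : ℕ) (hP : 0 < P) :
    (∑ d ∈ P.divisors, if d ∣ g then (ArithmeticFunction.moebius d : ℝ) else 0) =
      if Nat.gcd g P = 1 then 1 else 0 := by
  have h1 : P.divisors.filter (fun d => d ∣ g) = (Nat.gcd g P).divisors := by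
    ext d
    simp only [mem_filter, Nat.mem_divisors, Nat.dvd_gcd_iff]
    constructor
    · rintro ⟨⟨h1, h2⟩, h3⟩
      exact ⟨⟨h3, h1⟩, (Nat.gcd_pos_of_pos_right _ hP).ne'⟩
    · rintro ⟨⟨h1, h2⟩, _⟩
      exact ⟨⟨h2, hP.ne'⟩, h1⟩
  rw [← Finset.sum_filter, h1]
  have h2 := congrArg (fun f : ArithmeticFunction ℤ => f (Nat.gcd g P))
    ArithmeticFunction.coe_zeta_mul_moebius
  simp only [ArithmeticFunction.coe_zeta_mul_apply, ArithmeticFunction.one_apply] at h2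
  have h3 : ((∑ i ∈ (Nat.gcd g P).divisors, ArithmeticFunction.moebius i : ℤ) : ℝ) =
      ((if Nat.gcd g P = 1 then 1 else 0 : ℤ) : ℝ) := by rw [h2]
  push_cast at h3
  exact h3

theorem Zq_eq (P M a b : ℕ) (hP : 0 < P) :
    (Zq P M a b : ℝ) = ∑ d ∈ P.divisors, (ArithmeticFunction.moebius d : ℝ) * (A M d a * A M d b) := by
  have h1 : (Zq P M a b : ℝ) = ∑ i ∈ Icc 1 M, ∑ j ∈ Icc 1 M,
      (if Nat.gcd (Nat.gcd (a + i) (b + j)) P = 1 then (1 : ℝ) else 0) := by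
    unfold Zq
    rw [← Finset.sum_product', Finset.sum_boole]
  rw [h1]
  have h2 : ∀ i j : ℕ, (if Nat.gcd (Nat.gcd (a + i) (b + j)) P = 1 then (1 : ℝ) else 0) =
      ∑ d ∈ P.divisors, (ArithmeticFunction.moebius d : ℝ) *
        ((if d ∣ a + i then (1 : ℝ) else 0) * (if d ∣ b + j then (1 : ℝ) else 0)) := by
    intro i j
    rw [← sum_moebius P _ hP]
    refine Finset.sum_congr rfl fun d _ => ?_
    by_cases h3 : d ∣ a + i <;> by_cases h4 : d ∣ b + j <;> simp [Nat.dvd_gcd_iff, h3, h4]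
  simp only [h2]
  rw [Finset.sum_congr rfl (fun i _ => Finset.sum_comm), Finset.sum_comm]
  refine Finset.sum_congr rfl fun d _ => ?_
  unfold A
  rw [Finset.sum_mul_sum, Finset.mul_sum]
  refine Finset.sum_congr rfl fun i _ => ?_
  rw [Finset.mul_sum]

/-! ### Counting solutions of congruences -/

/-- number of pairs `i, j` in `[1, M]` congruent modulo `g` -/
noncomputable def W (M g : ℕ) : ℝ :=
  ∑ i ∈ Icc 1 M, ∑ j ∈ Icc 1 M, if i ≡ j [MOD g] then (1 : ℝ) else 0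

theorem count_pair (P d d' i j : ℕ) (hP : 0 < P) (hd : d ∣ P) (hd' : d' ∣ P) :
    ∑ a ∈ range P, ((if d ∣ a + i then (1 : ℝ) else 0) * (if d' ∣ a + j then (1 : ℝ) else 0)) =
      (P : ℝ) * (Nat.gcd d d' / ((d : ℝ) * d')) *
        (if i ≡ j [MOD Nat.gcd d d'] then (1 : ℝ) else 0) := by
  have hd0 : 0 < d := Nat.pos_of_dvd_of_pos hd hP
  have hd0' : 0 < d' := Nat.pos_of_dvd_of_pos hd' hP
  set g := Nat.gcd d d' with hg
  have hg0 : 0 < g := Nat.gcd_pos_of_pos_left _ hd0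
  set L := Nat.lcm d d' with hL
  have hL0 : 0 < L := Nat.lcm_pos hd0 hd0'
  have hLP : L ∣ P := Nat.lcm_dvd hd hd'
  have hgL : g * L = d * d' := Nat.gcd_mul_lcm d d'
  have h1 : ∑ a ∈ range P, ((if d ∣ a + i then (1 : ℝ) else 0) *
      (if d' ∣ a + j then (1 : ℝ) else 0)) =
      (((range P).filter (fun a => d ∣ a + i ∧ d' ∣ a + j)).card : ℝ) := by
    rw [← Finset.sum_boole]
    refine Finset.sum_congr rfl fun a _ => ?_
    by_cases h3 : d ∣ a + i <;> by_cases h4 : d' ∣ a + j <;> simp [h3, h4]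
  rw [h1]
  by_cases hij : i ≡ j [MOD g]
  · rw [if_pos hij, mul_one]
    -- a solution
    have hex : ∃ a0 : ℕ, d ∣ a0 + i ∧ d' ∣ a0 + j := by
      have hcong : (d - 1) * i ≡ (d' - 1) * j [MOD Nat.gcd d d'] := by
        rw [← ZMod.natCast_eq_natCast_iff]
        have e1 : ((d : ℕ) : ZMod (Nat.gcd d d')) = 0 :=
          (ZMod.natCast_eq_zero_iff _ _).2 (Nat.gcd_dvd_left d d')
        have e2 : ((d' : ℕ) : ZMod (Nat.gcd d d')) = 0 :=
          (ZMod.natCast_eq_zero_iff _ _).2 (Nat.gcd_dvd_right d d')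
        have e3 : ((i : ℕ) : ZMod (Nat.gcd d d')) = (j : ℕ) :=
          (ZMod.natCast_eq_natCast_iff _ _ _).2 hij
        rw [Nat.cast_mul, Nat.cast_mul, Nat.cast_sub hd0, Nat.cast_sub hd0', e1, e2, e3]
      obtain ⟨a0, h5, h6⟩ := Nat.chineseRemainder' hcong
      refine ⟨a0, ?_, ?_⟩
      · have h7 := h5.add_right i
        rw [← Nat.modEq_zero_iff_dvd]
        refine h7.trans ?_
        rw [Nat.modEq_zero_iff_dvd]
        exact ⟨i, by rw [← Nat.succ_mul]; congr 1; omega⟩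
      · have h7 := h6.add_right j
        rw [← Nat.modEq_zero_iff_dvd]
        refine h7.trans ?_
        rw [Nat.modEq_zero_iff_dvd]
        exact ⟨j, by rw [← Nat.succ_mul]; congr 1; omega⟩
    obtain ⟨a0, h5, h6⟩ := hex
    have h7 : (range P).filter (fun a => d ∣ a + i ∧ d' ∣ a + j) =
        (range P).filter (fun a => a ≡ a0 [MOD L]) := by
      refine Finset.filter_congr fun a _ => ?_
      have key : ∀ e k : ℕ, e ∣ a0 + k → (e ∣ a + k ↔ a ≡ a0 [MOD e]) := by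
        intro e k he
        rw [← Nat.modEq_zero_iff_dvd] at he ⊢
        constructor
        · intro h; exact Nat.ModEq.add_right_cancel' k (h.trans he.symm)
        · intro h; exact (h.add_right k).trans he
      rw [key d i h5, key d' j h6]
      constructor
      · rintro ⟨h8, h9⟩
        rw [Nat.modEq_iff_dvd, Int.natCast_dvd] at h8 h9 ⊢
        exact Nat.lcm_dvd h8 h9
      · intro h8
        exact ⟨h8.of_dvd (Nat.dvd_lcm_left _ _), h8.of_dvd (Nat.dvd_lcm_right _ _)⟩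
    rw [h7, ← Nat.count_eq_card_filter_range, Nat.count_modEq_card P hL0]
    have h8 : P % L = 0 := Nat.mod_eq_zero_of_dvd hLP
    rw [h8]
    simp only [Nat.not_lt_zero, if_false, add_zero]
    rw [Nat.cast_div hLP (by exact_mod_cast hL0.ne')]
    have hgL' : (g : ℝ) * L = d * d' := by exact_mod_cast hgL
    have hL0' : (L : ℝ) ≠ 0 := by exact_mod_cast hL0.ne'
    have hd1 : (d : ℝ) ≠ 0 := by exact_mod_cast hd0.ne'
    have hd1' : (d' : ℝ) ≠ 0 := by exact_mod_cast hd0'.ne'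
    rw [← hgL']
    have hg1 : (g : ℝ) ≠ 0 := by exact_mod_cast hg0.ne'
    field_simp
  · rw [if_neg hij, mul_zero]
    have h7 : (range P).filter (fun a => d ∣ a + i ∧ d' ∣ a + j) = ∅ := by
      rw [Finset.filter_eq_empty_iff]
      rintro a _ ⟨h8, h9⟩
      apply hij
      have h10 : a + i ≡ 0 [MOD g] := (Nat.modEq_zero_iff_dvd.2 h8).of_dvd (Nat.gcd_dvd_left _ _)
      have h11 : a + j ≡ 0 [MOD g] := (Nat.modEq_zero_iff_dvd.2 h9).of_dvd (Nat.gcd_dvd_right _ _)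
      exact Nat.ModEq.add_left_cancel' a (h10.trans h11.symm)
    rw [h7]; simp

theorem sum_AA (P M d d' : ℕ) (hP : 0 < P) (hd : d ∣ P) (hd' : d' ∣ P) :
    ∑ a ∈ range P, A M d a * A M d' a =
      (P : ℝ) * (Nat.gcd d d' / ((d : ℝ) * d')) * W M (Nat.gcd d d') := by
  have h1 : ∀ a, A M d a * A M d' a = ∑ i ∈ Icc 1 M, ∑ j ∈ Icc 1 M,
      ((if d ∣ a + i then (1 : ℝ) else 0) * (if d' ∣ a + j then (1 : ℝ) else 0)) := by
    intro a
    unfold A
    rw [Finset.sum_mul_sum]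
  simp only [h1]
  rw [Finset.sum_comm]
  unfold W
  rw [Finset.mul_sum]
  refine Finset.sum_congr rfl fun i _ => ?_
  rw [Finset.sum_comm, Finset.mul_sum]
  refine Finset.sum_congr rfl fun j _ => ?_
  exact count_pair P d d' i j hP hd hd'

theorem sum_A (P M d : ℕ) (hP : 0 < P) (hd : d ∣ P) :
    ∑ a ∈ range P, A M d a = (P : ℝ) * (M / d) := by
  have hd0 : 0 < d := Nat.pos_of_dvd_of_pos hd hP
  unfold A
  rw [Finset.sum_comm]
  have h1 : ∀ i ∈ Icc 1 M, ∑ a ∈ range P, (if d ∣ a + i then (1 : ℝ) else 0) = (P : ℝ) / d := by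
    intro i _
    have h2 := count_pair P d 1 i 0 hP hd (one_dvd _)
    simp only [one_dvd, if_true, mul_one, Nat.gcd_one_right] at h2
    rw [h2, if_pos (Nat.modEq_one)]
    push_cast
    ring
  rw [Finset.sum_congr rfl h1, Finset.sum_const, Nat.card_Icc, Nat.add_sub_cancel, nsmul_eq_mul]
  ring

/-! ### The variance of the number of elements in a residue class -/

theorem count_class (M g c : ℕ) (hg : 0 < g) :
    |(((Icc 1 M).filter (fun i => i ≡ c [MOD g])).card : ℝ) - M / g| ≤ 1 := by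
  have h1 : Icc 1 M = Ioc 0 M := by ext; simp [Nat.succ_le_iff]
  rw [h1]
  have h2 := Nat.Ioc_filter_modEq_card 0 M hg c
  set x : ℚ := ((M : ℚ) - c) / g with hx
  set y : ℚ := (((0 : ℕ) : ℚ) - c) / g with hy
  have hg0 : (0 : ℚ) < g := by exact_mod_cast hg
  have hxy : x - y = M / g := by rw [hx, hy]; push_cast; ring
  have hxy0 : y ≤ x := by
    have : 0 ≤ (M : ℚ) / g := by positivity
    linarith
  have h3 : (⌊y⌋ : ℤ) ≤ ⌊x⌋ := Int.floor_le_floor hxy0
  rw [max_eq_left (by linarith)] at h2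
  have h4 : ((((Ioc 0 M).filter (fun i => i ≡ c [MOD g])).card : ℤ) : ℚ) = ((⌊x⌋ - ⌊y⌋ : ℤ) : ℚ) := by
    rw [← h2]
  push_cast at h4
  have h5 := Int.floor_le x
  have h6 := Int.lt_floor_add_one x
  have h7 := Int.floor_le y
  have h8 := Int.lt_floor_add_one y
  have h9 : |((((Ioc 0 M).filter (fun i => i ≡ c [MOD g])).card : ℚ)) - M / g| ≤ 1 := by
    rw [h4, ← hxy, abs_le]
    constructor <;> linarith
  have h10 : ((|((((Ioc 0 M).filter (fun i => i ≡ c [MOD g])).card : ℚ)) - M / g| : ℚ) : ℝ) ≤ 1 := by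
    exact_mod_cast h9
  push_cast at h10
  exact h10

theorem W_eq (M g : ℕ) (hg : 0 < g) :
    W M g = ∑ c ∈ range g, (((Icc 1 M).filter (fun i => i ≡ c [MOD g])).card : ℝ) ^ 2 := by
  have h1 : ∀ c, (((Icc 1 M).filter (fun i => i ≡ c [MOD g])).card : ℝ) ^ 2 =
      ∑ i ∈ Icc 1 M, ∑ j ∈ Icc 1 M, ((if i ≡ c [MOD g] then (1 : ℝ) else 0) *
        (if j ≡ c [MOD g] then (1 : ℝ) else 0)) := by
    intro c
    rw [sq, ← Finset.sum_boole, Finset.sum_mul_sum]
  simp only [h1]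
  rw [Finset.sum_comm]
  unfold W
  refine Finset.sum_congr rfl fun i _ => ?_
  rw [Finset.sum_comm]
  refine Finset.sum_congr rfl fun j _ => ?_
  rw [Finset.sum_eq_single (i % g)]
  · have h2 : i ≡ i % g [MOD g] := (Nat.mod_modEq i g).symm
    rw [if_pos h2, one_mul]
    congr 1
    apply propext
    constructor
    · intro h; exact h.symm.trans h2
    · intro h; exact h2.trans h.symm
  · intro c hc hne
    have h3 : ¬ i ≡ c [MOD g] := by
      intro h
      apply hne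
      have h4 : i % g = c % g := h
      rw [h4, Nat.mod_eq_of_lt (mem_range.1 hc)]
    rw [if_neg h3, zero_mul]
  · intro h
    exact absurd (mem_range.2 (Nat.mod_lt _ hg)) h

theorem sum_class (M g : ℕ) (hg : 0 < g) :
    ∑ c ∈ range g, (((Icc 1 M).filter (fun i => i ≡ c [MOD g])).card : ℝ) = M := by
  have h1 : ∀ c, (((Icc 1 M).filter (fun i => i ≡ c [MOD g])).card : ℝ) =
      ∑ i ∈ Icc 1 M, (if i ≡ c [MOD g] then (1 : ℝ) else 0) := by
    intro c
    rw [← Finset.sum_boole]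
  simp only [h1]
  rw [Finset.sum_comm]
  have h2 : ∀ i ∈ Icc 1 M, ∑ c ∈ range g, (if i ≡ c [MOD g] then (1 : ℝ) else 0) = 1 := by
    intro i _
    rw [Finset.sum_eq_single (i % g)]
    · rw [if_pos (Nat.mod_modEq i g).symm]
    · intro c hc hne
      rw [if_neg]
      intro h
      apply hne
      have h4 : i % g = c % g := h
      rw [h4, Nat.mod_eq_of_lt (mem_range.1 hc)]
    · intro h
      exact absurd (mem_range.2 (Nat.mod_lt _ hg)) h
  rw [Finset.sum_congr rfl h2]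
  simp

/-- the centred version of `W` -/
noncomputable def v (M g : ℕ) : ℝ := g * W M g - (M : ℝ) ^ 2

theorem v_eq (M g : ℕ) (hg : 0 < g) :
    v M g = g * ∑ c ∈ range g,
      ((((Icc 1 M).filter (fun i => i ≡ c [MOD g])).card : ℝ) - M / g) ^ 2 := by
  have hg0 : (g : ℝ) ≠ 0 := by exact_mod_cast hg.ne'
  have h1 : ∀ c ∈ range g, ((((Icc 1 M).filter (fun i => i ≡ c [MOD g])).card : ℝ) - M / g) ^ 2 =
      (((Icc 1 M).filter (fun i => i ≡ c [MOD g])).card : ℝ) ^ 2 -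
      2 * (M / g) * (((Icc 1 M).filter (fun i => i ≡ c [MOD g])).card : ℝ) + (M / g : ℝ) ^ 2 := by
    intro c _; ring
  rw [Finset.sum_congr rfl h1, Finset.sum_add_distrib, Finset.sum_sub_distrib, ← Finset.mul_sum,
    sum_class M g hg, ← W_eq M g hg, Finset.sum_const, card_range, nsmul_eq_mul]
  unfold v
  field_simp
  ring

theorem v_nonneg (M g : ℕ) (hg : 0 < g) : 0 ≤ v M g := by
  rw [v_eq M g hg]
  positivity

theorem v_le_sq (M g : ℕ) (hg : 0 < g) : v M g ≤ (g : ℝ) ^ 2 := by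
  rw [v_eq M g hg]
  have h1 : ∀ c ∈ range g,
      ((((Icc 1 M).filter (fun i => i ≡ c [MOD g])).card : ℝ) - M / g) ^ 2 ≤ 1 := by
    intro c _
    have := count_class M g c hg
    rw [← sq_abs]
    nlinarith [abs_nonneg ((((Icc 1 M).filter (fun i => i ≡ c [MOD g])).card : ℝ) - M / g)]
  have h2 := Finset.sum_le_sum h1
  rw [Finset.sum_const, card_range, nsmul_eq_mul, mul_one] at h2
  have hg0 : (0 : ℝ) ≤ g := Nat.cast_nonneg g
  nlinarith

theorem v_le_mul (M g : ℕ) (hg : 0 < g) : v M g ≤ (g : ℝ) * M := by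
  have hg0 : (0 : ℝ) < g := by exact_mod_cast hg
  have h1 : W M g ≤ ∑ _i ∈ Icc 1 M, ((M : ℝ) / g + 1) := by
    unfold W
    refine Finset.sum_le_sum fun i _ => ?_
    have h2 : ∀ j ∈ Icc 1 M, (if i ≡ j [MOD g] then (1 : ℝ) else 0) =
        (if j ≡ i [MOD g] then (1 : ℝ) else 0) := by
      intro j _
      congr 1
      exact propext ⟨fun h => h.symm, fun h => h.symm⟩
    rw [Finset.sum_congr rfl h2, Finset.sum_boole]
    have := count_class M g i hg
    rw [abs_le] at this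
    linarith [this.2]
  rw [Finset.sum_const, Nat.card_Icc, Nat.add_sub_cancel, nsmul_eq_mul] at h1
  unfold v
  have h2 := mul_le_mul_of_nonneg_left h1 hg0.le
  have h3 : (g : ℝ) * ((M : ℝ) * ((M : ℝ) / g + 1)) = (M : ℝ) ^ 2 + g * M := by
    field_simp
  linarith

/-! ### Sums over divisors -/

theorem sum_inv_sq_le (n : ℕ) : ∑ m ∈ Icc 1 n, ((m : ℝ) ^ 2)⁻¹ ≤ 2 := by
  rcases Nat.eq_zero_or_pos n with h | h
  · subst h; simp
  · have h1 : Icc 1 n = insert 1 (Ioc 1 n) := by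
      ext x; simp only [mem_Icc, mem_insert, mem_Ioc]; omega
    rw [h1, Finset.sum_insert (by simp)]
    have h2 := sum_Ioc_inv_sq_le_sub (α := ℝ) (k := 1) (n := n) one_ne_zero h
    have h3 : (0 : ℝ) ≤ ((n : ℕ) : ℝ)⁻¹ := by positivity
    push_cast at h2 ⊢
    norm_num at h2 ⊢
    linarith

theorem sum_multiples (P g : ℕ) (hg : 0 < g) :
    ∑ d ∈ Icc 1 P, (if g ∣ d then ((d : ℝ) ^ 2)⁻¹ else 0) ≤ 2 / (g : ℝ) ^ 2 := by
  rw [← Finset.sum_filter]
  have h1 : (Icc 1 P).filter (fun d => g ∣ d) ⊆ (Icc 1 P).image (fun e => g * e) := by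
    intro d hd
    rw [mem_filter, mem_Icc] at hd
    obtain ⟨⟨h2, h3⟩, e, rfl⟩ := hd
    rw [mem_image]
    refine ⟨e, ?_, rfl⟩
    rw [mem_Icc]
    constructor
    · rcases Nat.eq_zero_or_pos e with h | h
      · subst h; omega
      · exact h
    · exact le_trans (Nat.le_mul_of_pos_left e hg) h3
  refine (Finset.sum_le_sum_of_subset_of_nonneg h1 (fun _ _ _ => by positivity)).trans ?_
  rw [Finset.sum_image (fun x _ y _ h => Nat.eq_of_mul_eq_mul_left hg h)]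
  have h2 : ∀ e ∈ Icc 1 P, (((g * e : ℕ) : ℝ) ^ 2)⁻¹ = ((g : ℝ) ^ 2)⁻¹ * ((e : ℝ) ^ 2)⁻¹ := by
    intro e _
    push_cast
    rw [mul_pow, mul_inv]
  rw [Finset.sum_congr rfl h2, ← Finset.mul_sum]
  have h3 := mul_le_mul_of_nonneg_left (sum_inv_sq_le P)
    (show (0 : ℝ) ≤ ((g : ℝ) ^ 2)⁻¹ by positivity)
  refine h3.trans (le_of_eq ?_)
  ring

theorem gcd_sum_le (P : ℕ) :
    ∑ d ∈ P.divisors, ∑ d' ∈ P.divisors, ((Nat.gcd d d' : ℝ) / ((d : ℝ) * d')) ^ 2 ≤ 8 := by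
  have hsub : P.divisors ⊆ Icc 1 P := by
    intro d hd
    rw [mem_Icc]
    exact ⟨Nat.pos_of_mem_divisors hd, Nat.divisor_le hd⟩
  have h1 : ∑ d ∈ P.divisors, ∑ d' ∈ P.divisors, ((Nat.gcd d d' : ℝ) / ((d : ℝ) * d')) ^ 2 ≤
      ∑ d ∈ Icc 1 P, ∑ d' ∈ Icc 1 P, ((Nat.gcd d d' : ℝ) / ((d : ℝ) * d')) ^ 2 := by
    refine (Finset.sum_le_sum fun d _ => Finset.sum_le_sum_of_subset_of_nonneg hsub
      (fun _ _ _ => sq_nonneg _)).trans ?_
    exact Finset.sum_le_sum_of_subset_of_nonneg hsub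
      (fun _ _ _ => Finset.sum_nonneg fun _ _ => sq_nonneg _)
  refine h1.trans ?_
  have h2 : ∀ d ∈ Icc 1 P, ∀ d' ∈ Icc 1 P, ((Nat.gcd d d' : ℝ) / ((d : ℝ) * d')) ^ 2 ≤
      ∑ g ∈ Icc 1 P, (g : ℝ) ^ 2 * ((if g ∣ d then ((d : ℝ) ^ 2)⁻¹ else 0) *
        (if g ∣ d' then ((d' : ℝ) ^ 2)⁻¹ else 0)) := by
    intro d hd d' _
    rw [mem_Icc] at hd
    have h3 : Nat.gcd d d' ∈ Icc 1 P := by
      rw [mem_Icc]
      exact ⟨Nat.gcd_pos_of_pos_left _ (by omega),
        (Nat.le_of_dvd (by omega) (Nat.gcd_dvd_left d d')).trans hd.2⟩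
    refine le_trans (le_of_eq ?_) (Finset.single_le_sum (f := fun g : ℕ => (g : ℝ) ^ 2 *
      ((if g ∣ d then ((d : ℝ) ^ 2)⁻¹ else 0) * (if g ∣ d' then ((d' : ℝ) ^ 2)⁻¹ else 0)))
      (fun g _ => by positivity) h3)
    rw [if_pos (Nat.gcd_dvd_left d d'), if_pos (Nat.gcd_dvd_right d d'), div_pow, mul_pow,
      div_eq_mul_inv, mul_inv]
  refine (Finset.sum_le_sum fun d hd => Finset.sum_le_sum fun d' hd' => h2 d hd d' hd').trans ?_
  have h3 : ∑ d ∈ Icc 1 P, ∑ d' ∈ Icc 1 P, ∑ g ∈ Icc 1 P, (g : ℝ) ^ 2 *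
        ((if g ∣ d then ((d : ℝ) ^ 2)⁻¹ else 0) * (if g ∣ d' then ((d' : ℝ) ^ 2)⁻¹ else 0)) =
      ∑ g ∈ Icc 1 P, (g : ℝ) ^ 2 * (∑ d ∈ Icc 1 P, (if g ∣ d then ((d : ℝ) ^ 2)⁻¹ else 0)) ^ 2 := by
    rw [Finset.sum_congr rfl (fun d _ => Finset.sum_comm), Finset.sum_comm]
    refine Finset.sum_congr rfl fun g _ => ?_
    rw [sq (∑ d ∈ Icc 1 P, (if g ∣ d then ((d : ℝ) ^ 2)⁻¹ else 0)), Finset.sum_mul_sum,
      Finset.mul_sum]
    refine Finset.sum_congr rfl fun d _ => ?_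
    rw [Finset.mul_sum]
  rw [h3]
  have h4 : ∀ g ∈ Icc 1 P, (g : ℝ) ^ 2 *
      (∑ d ∈ Icc 1 P, (if g ∣ d then ((d : ℝ) ^ 2)⁻¹ else 0)) ^ 2 ≤ 4 * ((g : ℝ) ^ 2)⁻¹ := by
    intro g hg
    rw [mem_Icc] at hg
    have hg0 : (0 : ℝ) < g := by exact_mod_cast hg.1
    have h5 := sum_multiples P g hg.1
    have h6 : (0 : ℝ) ≤ ∑ d ∈ Icc 1 P, (if g ∣ d then ((d : ℝ) ^ 2)⁻¹ else 0) :=
      Finset.sum_nonneg fun _ _ => by positivity
    have h7 := pow_le_pow_left₀ h6 h5 2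
    have h8 := mul_le_mul_of_nonneg_left h7 (sq_nonneg (g : ℝ))
    refine h8.trans (le_of_eq ?_)
    field_simp
    ring
  refine (Finset.sum_le_sum h4).trans ?_
  rw [← Finset.mul_sum]
  have := sum_inv_sq_le P
  linarith

/-! ### The variance for the periodic approximation -/

theorem var_period (P M : ℕ) (hP : 0 < P) :
    (∑ a ∈ range P, ∑ b ∈ range P, (Zq P M a b : ℝ) ^ 2) / (P : ℝ) ^ 2 -
      ((∑ a ∈ range P, ∑ b ∈ range P, (Zq P M a b : ℝ)) / (P : ℝ) ^ 2) ^ 2 ≤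
      24 * (M : ℝ) ^ 2 := by
  have hP0 : (P : ℝ) ≠ 0 := by exact_mod_cast hP.ne'
  let μ : ℕ → ℝ := fun d => (ArithmeticFunction.moebius d : ℝ)
  have hμ : ∀ d, |μ d| ≤ 1 := by
    intro d
    have := ArithmeticFunction.abs_moebius_le_one (n := d)
    show |((ArithmeticFunction.moebius d : ℤ) : ℝ)| ≤ 1
    exact_mod_cast this
  have h1 : (∑ a ∈ range P, ∑ b ∈ range P, (Zq P M a b : ℝ)) =
      ∑ d ∈ P.divisors, μ d * ((P : ℝ) * (M / d)) ^ 2 := by
    have h2 : ∀ a b, (Zq P M a b : ℝ) = ∑ d ∈ P.divisors, μ d * (A M d a * A M d b) :=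
      fun a b => Zq_eq P M a b hP
    simp only [h2]
    rw [Finset.sum_congr rfl (fun a _ => Finset.sum_comm), Finset.sum_comm]
    refine Finset.sum_congr rfl fun d hd => ?_
    have hdP : d ∣ P := Nat.dvd_of_mem_divisors hd
    rw [← sum_A P M d hP hdP, sq, Finset.sum_mul_sum, Finset.mul_sum]
    refine Finset.sum_congr rfl fun a _ => ?_
    rw [Finset.mul_sum]
  have h2 : (∑ a ∈ range P, ∑ b ∈ range P, (Zq P M a b : ℝ) ^ 2) =
      ∑ d ∈ P.divisors, ∑ d' ∈ P.divisors, μ d * μ d' *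
        ((P : ℝ) * (Nat.gcd d d' / ((d : ℝ) * d')) * W M (Nat.gcd d d')) ^ 2 := by
    have h3 : ∀ a b, (Zq P M a b : ℝ) ^ 2 = ∑ d ∈ P.divisors, ∑ d' ∈ P.divisors,
        μ d * μ d' * ((A M d a * A M d' a) * (A M d b * A M d' b)) := by
      intro a b
      have h4 : (Zq P M a b : ℝ) = ∑ d ∈ P.divisors, μ d * (A M d a * A M d b) :=
        Zq_eq P M a b hP
      rw [sq, h4, Finset.sum_mul_sum]
      refine Finset.sum_congr rfl fun d _ => Finset.sum_congr rfl fun d' _ => ?_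
      ring
    have h4 : ∀ a, ∑ b ∈ range P, (Zq P M a b : ℝ) ^ 2 = ∑ d ∈ P.divisors, ∑ d' ∈ P.divisors,
        μ d * μ d' * ((A M d a * A M d' a) * ∑ b ∈ range P, (A M d b * A M d' b)) := by
      intro a
      simp only [h3]
      rw [Finset.sum_comm]
      refine Finset.sum_congr rfl fun d _ => ?_
      rw [Finset.sum_comm]
      refine Finset.sum_congr rfl fun d' _ => ?_
      rw [Finset.mul_sum, Finset.mul_sum]
    simp only [h4]
    rw [Finset.sum_comm]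
    refine Finset.sum_congr rfl fun d hd => ?_
    rw [Finset.sum_comm]
    refine Finset.sum_congr rfl fun d' hd' => ?_
    rw [← sum_AA P M d d' hP (Nat.dvd_of_mem_divisors hd) (Nat.dvd_of_mem_divisors hd'), sq,
      Finset.sum_mul, Finset.mul_sum]
  have h3 : (∑ a ∈ range P, ∑ b ∈ range P, (Zq P M a b : ℝ) ^ 2) / (P : ℝ) ^ 2 -
      ((∑ a ∈ range P, ∑ b ∈ range P, (Zq P M a b : ℝ)) / (P : ℝ) ^ 2) ^ 2 =
      ∑ d ∈ P.divisors, ∑ d' ∈ P.divisors, μ d * μ d' *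
        (((Nat.gcd d d' / ((d : ℝ) * d')) * W M (Nat.gcd d d')) ^ 2 -
          ((M : ℝ) / d * (M / d')) ^ 2) := by
    have h4 : (∑ a ∈ range P, ∑ b ∈ range P, (Zq P M a b : ℝ)) / (P : ℝ) ^ 2 =
        ∑ d ∈ P.divisors, μ d * ((M : ℝ) / d) ^ 2 := by
      rw [h1, Finset.sum_div]
      refine Finset.sum_congr rfl fun d _ => ?_
      field_simp
    rw [h4, h2, sq (∑ d ∈ P.divisors, μ d * ((M : ℝ) / d) ^ 2), Finset.sum_mul_sum,
      Finset.sum_div, ← Finset.sum_sub_distrib]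
    refine Finset.sum_congr rfl fun d _ => ?_
    rw [Finset.sum_div, ← Finset.sum_sub_distrib]
    refine Finset.sum_congr rfl fun d' _ => ?_
    have h5 : μ d * μ d' * ((P : ℝ) * (Nat.gcd d d' / ((d : ℝ) * d')) * W M (Nat.gcd d d')) ^ 2 /
        (P : ℝ) ^ 2 = μ d * μ d' * ((Nat.gcd d d' / ((d : ℝ) * d')) * W M (Nat.gcd d d')) ^ 2 := by
      rw [mul_assoc (P : ℝ), mul_pow (P : ℝ)]
      field_simp
    rw [h5]
    ring
  rw [h3]
  have h4 : ∀ d ∈ P.divisors, ∀ d' ∈ P.divisors, μ d * μ d' *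
        (((Nat.gcd d d' / ((d : ℝ) * d')) * W M (Nat.gcd d d')) ^ 2 -
          ((M : ℝ) / d * (M / d')) ^ 2) ≤
      3 * (M : ℝ) ^ 2 * ((Nat.gcd d d' : ℝ) / ((d : ℝ) * d')) ^ 2 := by
    intro d hd d' hd'
    have hd0 : (0 : ℝ) < d := by exact_mod_cast Nat.pos_of_mem_divisors hd
    have hd0' : (0 : ℝ) < d' := by exact_mod_cast Nat.pos_of_mem_divisors hd'
    have hg : 0 < Nat.gcd d d' := Nat.gcd_pos_of_pos_left _ (Nat.pos_of_mem_divisors hd)
    set g := Nat.gcd d d' with hgdef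
    have hg0 : (0 : ℝ) < g := by exact_mod_cast hg
    have hv0 := v_nonneg M g hg
    have hv1 := v_le_sq M g hg
    have hv2 := v_le_mul M g hg
    have hgW : (g : ℝ) * W M g = (M : ℝ) ^ 2 + v M g := by unfold v; ring
    have h5 : (((g : ℝ) / ((d : ℝ) * d')) * W M g) ^ 2 - ((M : ℝ) / d * (M / d')) ^ 2 =
        (2 * (M : ℝ) ^ 2 * v M g + v M g ^ 2) / ((d : ℝ) * d') ^ 2 := by
      have h6 : ((g : ℝ) / ((d : ℝ) * d')) * W M g = ((M : ℝ) ^ 2 + v M g) / ((d : ℝ) * d') := by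
        rw [← hgW]; ring
      rw [h6]
      field_simp
      ring
    rw [h5]
    have h6 : 0 ≤ (2 * (M : ℝ) ^ 2 * v M g + v M g ^ 2) / ((d : ℝ) * d') ^ 2 := by positivity
    have h7 : μ d * μ d' ≤ 1 := by
      refine (le_abs_self _).trans ?_
      rw [abs_mul]
      exact mul_le_one₀ (hμ d) (abs_nonneg _) (hμ d')
    have h8 : μ d * μ d' * ((2 * (M : ℝ) ^ 2 * v M g + v M g ^ 2) / ((d : ℝ) * d') ^ 2) ≤
        (2 * (M : ℝ) ^ 2 * v M g + v M g ^ 2) / ((d : ℝ) * d') ^ 2 :=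
      mul_le_of_le_one_left h6 h7
    refine h8.trans ?_
    have h9 : 2 * (M : ℝ) ^ 2 * v M g + v M g ^ 2 ≤ 3 * (M : ℝ) ^ 2 * (g : ℝ) ^ 2 := by
      have e1 : 2 * (M : ℝ) ^ 2 * v M g ≤ 2 * (M : ℝ) ^ 2 * (g : ℝ) ^ 2 :=
        mul_le_mul_of_nonneg_left hv1 (by positivity)
      have e2 : v M g ^ 2 ≤ ((g : ℝ) * M) ^ 2 := pow_le_pow_left₀ hv0 hv2 2
      nlinarith
    have h10 : 3 * (M : ℝ) ^ 2 * ((g : ℝ) / ((d : ℝ) * d')) ^ 2 =
        (3 * (M : ℝ) ^ 2 * (g : ℝ) ^ 2) / ((d : ℝ) * d') ^ 2 := by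
      rw [div_pow]; ring
    rw [h10]
    exact div_le_div_of_nonneg_right h9 (by positivity)
  refine (Finset.sum_le_sum fun d hd => Finset.sum_le_sum fun d' hd' => h4 d hd d' hd').trans ?_
  have h5 : ∑ d ∈ P.divisors, ∑ d' ∈ P.divisors,
      3 * (M : ℝ) ^ 2 * ((Nat.gcd d d' : ℝ) / ((d : ℝ) * d')) ^ 2 =
      3 * (M : ℝ) ^ 2 * ∑ d ∈ P.divisors, ∑ d' ∈ P.divisors,
        ((Nat.gcd d d' : ℝ) / ((d : ℝ) * d')) ^ 2 := by
    rw [Finset.mul_sum]
    refine Finset.sum_congr rfl fun d _ => ?_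
    rw [Finset.mul_sum]
  rw [h5]
  have h6 := mul_le_mul_of_nonneg_left (gcd_sum_le P) (show (0 : ℝ) ≤ 3 * (M : ℝ) ^ 2 by positivity)
  linarith

/-! ### Densities -/

/-- the frequencies of the values of `Zq` over one period -/
noncomputable def dP (P M r : ℕ) : ℝ :=
  (((range P ×ˢ range P).filter (fun x : ℕ × ℕ => Zq P M x.1 x.2 = r)).card : ℝ) / (P : ℝ) ^ 2

/-- the frequencies of the values of `Zq` over `{1, …, n}²` -/
noncomputable def freqq (P M r n : ℕ) : ℝ :=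
  (((Icc 1 n ×ˢ Icc 1 n).filter (fun x : ℕ × ℕ => Zq P M x.1 x.2 = r)).card : ℝ) / (n : ℝ) ^ 2

theorem Zq_mod (P M a b : ℕ) : Zq P M a b = Zq P M (a % P) (b % P) := by
  unfold Zq
  congr 1
  refine Finset.filter_congr fun x _ => ?_
  have key : ∀ c i : ℕ, Nat.gcd (c + i) P = Nat.gcd (c % P + i) P := fun c i =>
    (((Nat.mod_modEq c P).symm.add_right i)).gcd_eq
  have h : ∀ u w : ℕ, Nat.gcd (Nat.gcd u w) P = Nat.gcd (Nat.gcd u P) (Nat.gcd w P) := by
    intro u w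
    apply Nat.dvd_antisymm
    · exact Nat.dvd_gcd
        (Nat.dvd_gcd ((Nat.gcd_dvd_left _ _).trans (Nat.gcd_dvd_left _ _)) (Nat.gcd_dvd_right _ _))
        (Nat.dvd_gcd ((Nat.gcd_dvd_left _ _).trans (Nat.gcd_dvd_right _ _)) (Nat.gcd_dvd_right _ _))
    · exact Nat.dvd_gcd
        (Nat.dvd_gcd ((Nat.gcd_dvd_left _ _).trans (Nat.gcd_dvd_left _ _))
          ((Nat.gcd_dvd_right _ _).trans (Nat.gcd_dvd_left _ _)))
        ((Nat.gcd_dvd_left _ _).trans (Nat.gcd_dvd_right _ _))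
  rw [h, key a, key b, ← h]

theorem sum_mod (P n : ℕ) (hP : 0 < P) (f : ℕ → ℝ) :
    ∑ a ∈ Icc 1 n, f (a % P) =
      ∑ u ∈ range P, (((Icc 1 n).filter (fun a => a ≡ u [MOD P])).card : ℝ) * f u := by
  rw [← Finset.sum_fiberwise_of_maps_to (s := Icc 1 n) (t := range P) (g := fun a => a % P)
    (fun a _ => mem_range.2 (Nat.mod_lt _ hP))]
  refine Finset.sum_congr rfl fun u hu => ?_
  have h1 : (Icc 1 n).filter (fun a => a % P = u) = (Icc 1 n).filter (fun a => a ≡ u [MOD P]) := by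
    refine Finset.filter_congr fun a _ => ?_
    unfold Nat.ModEq
    rw [Nat.mod_eq_of_lt (mem_range.1 hu)]
  have h2 : ∀ a ∈ (Icc 1 n).filter (fun a => a % P = u), f (a % P) = f u := by
    intro a ha
    rw [(mem_filter.1 ha).2]
  rw [Finset.sum_congr rfl h2, Finset.sum_const, nsmul_eq_mul, h1]

theorem tendsto_class (P u : ℕ) (hP : 0 < P) :
    Tendsto (fun n : ℕ => (((Icc 1 n).filter (fun a => a ≡ u [MOD P])).card : ℝ) / n) atTop
      (𝓝 (1 / P)) := by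
  have h1 : Tendsto (fun n : ℕ => (1 : ℝ) / P - 1 / n) atTop (𝓝 (1 / P - 0)) :=
    tendsto_const_nhds.sub tendsto_one_div_atTop_nhds_zero_nat
  have h2 : Tendsto (fun n : ℕ => (1 : ℝ) / P + 1 / n) atTop (𝓝 (1 / P + 0)) :=
    tendsto_const_nhds.add tendsto_one_div_atTop_nhds_zero_nat
  rw [sub_zero] at h1
  rw [add_zero] at h2
  refine tendsto_of_tendsto_of_tendsto_of_le_of_le' h1 h2 ?_ ?_
  · filter_upwards [eventually_gt_atTop 0] with n hn
    have hn0 : (0 : ℝ) < n := by exact_mod_cast hn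
    have h3 := count_class n P u hP
    rw [abs_le] at h3
    rw [le_div_iff₀ hn0]
    have h4 : ((1 : ℝ) / P - 1 / n) * n = n / P - 1 := by field_simp
    linarith [h3.1]
  · filter_upwards [eventually_gt_atTop 0] with n hn
    have hn0 : (0 : ℝ) < n := by exact_mod_cast hn
    have h3 := count_class n P u hP
    rw [abs_le] at h3
    rw [div_le_iff₀ hn0]
    have h4 : ((1 : ℝ) / P + 1 / n) * n = n / P + 1 := by field_simp
    linarith [h3.2]

theorem tendsto_freqq (P M r : ℕ) (hP : 0 < P) :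
    Tendsto (freqq P M r) atTop (𝓝 (dP P M r)) := by
  have h1 : freqq P M r = fun n : ℕ => ∑ u ∈ range P, ∑ w ∈ range P,
      ((((Icc 1 n).filter (fun a => a ≡ u [MOD P])).card : ℝ) / n) *
      (((((Icc 1 n).filter (fun a => a ≡ w [MOD P])).card : ℝ) / n) *
        (if Zq P M u w = r then (1 : ℝ) else 0)) := by
    funext n
    unfold freqq
    have h2 : (((Icc 1 n ×ˢ Icc 1 n).filter (fun x : ℕ × ℕ => Zq P M x.1 x.2 = r)).card : ℝ) =
        ∑ a ∈ Icc 1 n, ∑ b ∈ Icc 1 n, (if Zq P M (a % P) (b % P) = r then (1 : ℝ) else 0) := by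
      rw [← Finset.sum_boole, Finset.sum_product]
      refine Finset.sum_congr rfl fun a _ => Finset.sum_congr rfl fun b _ => ?_
      rw [← Zq_mod]
    rw [h2, sum_mod P n hP (fun u => ∑ b ∈ Icc 1 n,
      (if Zq P M u (b % P) = r then (1 : ℝ) else 0)), Finset.sum_div]
    refine Finset.sum_congr rfl fun u _ => ?_
    rw [sum_mod P n hP (fun w => (if Zq P M u w = r then (1 : ℝ) else 0)), Finset.mul_sum,
      Finset.sum_div]
    refine Finset.sum_congr rfl fun w _ => ?_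
    ring
  have h2 : dP P M r = ∑ u ∈ range P, ∑ w ∈ range P,
      (1 / (P : ℝ)) * ((1 / (P : ℝ)) * (if Zq P M u w = r then (1 : ℝ) else 0)) := by
    unfold dP
    rw [← Finset.sum_boole, Finset.sum_product, Finset.sum_div]
    refine Finset.sum_congr rfl fun u _ => ?_
    rw [Finset.sum_div]
    refine Finset.sum_congr rfl fun w _ => ?_
    ring
  rw [h1, h2]
  refine tendsto_finsetSum _ fun u _ => tendsto_finsetSum _ fun w _ => ?_
  exact (tendsto_class P u hP).mul ((tendsto_class P w hP).mul tendsto_const_nhds)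

theorem Zq_le (P M a b : ℕ) : Zq P M a b ≤ M ^ 2 := by
  unfold Zq
  refine (Finset.card_filter_le _ _).trans ?_
  rw [Finset.card_product, Nat.card_Icc, Nat.add_sub_cancel, sq]

theorem moment (P M : ℕ) (f : ℕ → ℝ) :
    ∑ r ∈ range (M ^ 2 + 1), f r * dP P M r =
      (∑ a ∈ range P, ∑ b ∈ range P, f (Zq P M a b)) / (P : ℝ) ^ 2 := by
  have h1 : ∀ r ∈ range (M ^ 2 + 1), f r * dP P M r =
      (∑ x ∈ (range P ×ˢ range P).filter (fun x : ℕ × ℕ => Zq P M x.1 x.2 = r),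
        f (Zq P M x.1 x.2)) / (P : ℝ) ^ 2 := by
    intro r _
    unfold dP
    have h2 : ∀ x ∈ (range P ×ˢ range P).filter (fun x : ℕ × ℕ => Zq P M x.1 x.2 = r),
        f (Zq P M x.1 x.2) = f r := by
      intro x hx
      rw [(mem_filter.1 hx).2]
    rw [Finset.sum_congr rfl h2, Finset.sum_const, nsmul_eq_mul]
    ring
  rw [Finset.sum_congr rfl h1, ← Finset.sum_div, Finset.sum_fiberwise_of_maps_to
    (s := range P ×ˢ range P) (t := range (M ^ 2 + 1)) (g := fun x : ℕ × ℕ => Zq P M x.1 x.2)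
    (fun x _ => mem_range.2 (Nat.lt_succ_of_le (Zq_le P M x.1 x.2))), Finset.sum_product]

theorem variance_dP (P M : ℕ) (hP : 0 < P) : variance (M ^ 2) (dP P M) ≤ 24 * (M : ℝ) ^ 2 := by
  unfold variance
  rw [moment P M (fun r => (r : ℝ) ^ 2), moment P M (fun r => (r : ℝ))]
  exact var_period P M hP

/-! ### Passing to the limit -/

theorem count_mult (n M i m : ℕ) (hi : i ≤ M) :
    (((Icc 1 n).filter (fun a => m ∣ a + i)).card : ℝ) ≤ ((n : ℝ) + M) / m := by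
  have h1 : ((Icc 1 n).filter (fun a => m ∣ a + i)).card ≤
      ((Ioc 0 (n + M)).filter (fun x => m ∣ x)).card := by
    have h2 : ((Icc 1 n).filter (fun a => m ∣ a + i)).image (fun a => a + i) ⊆
        (Ioc 0 (n + M)).filter (fun x => m ∣ x) := by
      intro x hx
      rw [mem_image] at hx
      obtain ⟨a, ha, rfl⟩ := hx
      rw [mem_filter, mem_Icc] at ha
      rw [mem_filter, mem_Ioc]
      exact ⟨⟨by omega, by omega⟩, ha.2⟩
    have h3 := Finset.card_le_card h2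
    rwa [Finset.card_image_of_injective _ (add_left_injective i)] at h3
  rw [Nat.Ioc_filter_dvd_card_eq_div] at h1
  have h2 : (((n + M) / m : ℕ) : ℝ) ≤ ((n + M : ℕ) : ℝ) / m := Nat.cast_div_le
  push_cast at h2
  exact le_trans (by exact_mod_cast h1) h2

/-- the points where `Z` and `Zq` differ -/
def Bad (k M n : ℕ) : Finset (ℕ × ℕ) :=
  (Icc 1 n ×ˢ Icc 1 n).filter (fun x : ℕ × ℕ => Z M x.1 x.2 ≠ Zq (k.factorial) M x.1 x.2)

theorem bad_sub (k M n : ℕ) :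
    Bad k M n ⊆ (Icc 1 M).biUnion fun i => (Icc 1 M).biUnion fun j =>
      (Ioc k (n + M)).biUnion fun m =>
        ((Icc 1 n).filter (fun a => m ∣ a + i)) ×ˢ ((Icc 1 n).filter (fun b => m ∣ b + j)) := by
  rintro ⟨a, b⟩ hx
  unfold Bad at hx
  rw [mem_filter, mem_product] at hx
  obtain ⟨⟨ha, hb⟩, hne⟩ := hx
  have hsub : ((Icc 1 M) ×ˢ (Icc 1 M)).filter (fun x : ℕ × ℕ => Nat.gcd (a + x.1) (b + x.2) = 1) ⊆
      ((Icc 1 M) ×ˢ (Icc 1 M)).filter
        (fun x : ℕ × ℕ => Nat.gcd (Nat.gcd (a + x.1) (b + x.2)) k.factorial = 1) := by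
    intro x hx
    rw [mem_filter] at hx ⊢
    refine ⟨hx.1, ?_⟩
    rw [hx.2]
    exact Nat.gcd_one_left _
  have hex : ∃ x ∈ ((Icc 1 M) ×ˢ (Icc 1 M)).filter
        (fun x : ℕ × ℕ => Nat.gcd (Nat.gcd (a + x.1) (b + x.2)) k.factorial = 1),
        x ∉ ((Icc 1 M) ×ˢ (Icc 1 M)).filter
          (fun x : ℕ × ℕ => Nat.gcd (a + x.1) (b + x.2) = 1) := by
    by_contra hcon
    push Not at hcon
    apply hne
    show Z M a b = Zq k.factorial M a b
    unfold Z Zq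
    congr 1
    exact Finset.Subset.antisymm hsub hcon
  obtain ⟨⟨i, j⟩, h1, h2⟩ := hex
  rw [mem_filter, mem_product] at h1
  obtain ⟨⟨hi, hj⟩, h3⟩ := h1
  have h4 : Nat.gcd (a + i) (b + j) ≠ 1 := by
    intro h
    apply h2
    rw [mem_filter, mem_product]
    exact ⟨⟨hi, hj⟩, h⟩
  simp only [mem_Icc] at ha hb hi hj
  simp only at h3
  set g := Nat.gcd (a + i) (b + j) with hg
  have hg0 : 0 < g := Nat.gcd_pos_of_pos_left _ (by omega)
  have hgk : k < g := by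
    obtain ⟨q, hq, hqg⟩ := Nat.exists_prime_and_dvd h4
    have h5 : k < q := by
      by_contra hcon
      have h6 : q ∣ k.factorial := (hq.dvd_factorial).2 (not_lt.1 hcon)
      have h7 : q ∣ Nat.gcd g k.factorial := Nat.dvd_gcd hqg h6
      rw [h3] at h7
      exact hq.one_lt.ne' (Nat.dvd_one.1 h7)
    exact lt_of_lt_of_le h5 (Nat.le_of_dvd hg0 hqg)
  simp only [mem_biUnion, mem_product, mem_filter, mem_Icc, mem_Ioc]
  refine ⟨i, hi, j, hj, g, ⟨hgk, ?_⟩, ⟨ha, Nat.gcd_dvd_left _ _⟩, ⟨hb, Nat.gcd_dvd_right _ _⟩⟩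
  have := Nat.le_of_dvd (by omega) (Nat.gcd_dvd_left (a + i) (b + j))
  omega

theorem bad_card (k M n : ℕ) (hk : 1 ≤ k) :
    ((Bad k M n).card : ℝ) ≤ (M : ℝ) ^ 2 * (((n : ℝ) + M) ^ 2 / k) := by
  have h1 : ((Bad k M n).card : ℝ) ≤ ∑ _i ∈ Icc 1 M, ∑ _j ∈ Icc 1 M, ∑ m ∈ Ioc k (n + M),
      (((n : ℝ) + M) / m) ^ 2 := by
    have h2 := (Finset.card_le_card (bad_sub k M n)).trans Finset.card_biUnion_le
    have h3 : ((Bad k M n).card : ℝ) ≤ ∑ i ∈ Icc 1 M, (((Icc 1 M).biUnion fun j =>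
      (Ioc k (n + M)).biUnion fun m =>
        ((Icc 1 n).filter (fun a => m ∣ a + i)) ×ˢ
          ((Icc 1 n).filter (fun b => m ∣ b + j))).card : ℝ) := by exact_mod_cast h2
    refine h3.trans (Finset.sum_le_sum fun i hi => ?_)
    have h4 : (((Icc 1 M).biUnion fun j =>
      (Ioc k (n + M)).biUnion fun m =>
        ((Icc 1 n).filter (fun a => m ∣ a + i)) ×ˢ
          ((Icc 1 n).filter (fun b => m ∣ b + j))).card : ℝ) ≤ ∑ j ∈ Icc 1 M,
      (((Ioc k (n + M)).biUnion fun m =>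
        ((Icc 1 n).filter (fun a => m ∣ a + i)) ×ˢ
          ((Icc 1 n).filter (fun b => m ∣ b + j))).card : ℝ) := by
      exact_mod_cast Finset.card_biUnion_le
    refine h4.trans (Finset.sum_le_sum fun j hj => ?_)
    have h5 : (((Ioc k (n + M)).biUnion fun m =>
        ((Icc 1 n).filter (fun a => m ∣ a + i)) ×ˢ
          ((Icc 1 n).filter (fun b => m ∣ b + j))).card : ℝ) ≤ ∑ m ∈ Ioc k (n + M),
      ((((Icc 1 n).filter (fun a => m ∣ a + i)) ×ˢ
          ((Icc 1 n).filter (fun b => m ∣ b + j))).card : ℝ) := by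
      exact_mod_cast Finset.card_biUnion_le
    refine h5.trans (Finset.sum_le_sum fun m _ => ?_)
    rw [Finset.card_product, sq]
    push_cast
    exact mul_le_mul (count_mult n M i m (mem_Icc.1 hi).2) (count_mult n M j m (mem_Icc.1 hj).2)
      (Nat.cast_nonneg _) (by positivity)
  refine h1.trans ?_
  have h2 : ∑ m ∈ Ioc k (n + M), (((n : ℝ) + M) / m) ^ 2 ≤ ((n : ℝ) + M) ^ 2 / k := by
    have h3 : ∀ m ∈ Ioc k (n + M), (((n : ℝ) + M) / m) ^ 2 =
        ((n : ℝ) + M) ^ 2 * ((m : ℝ) ^ 2)⁻¹ := by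
      intro m _
      rw [div_pow, div_eq_mul_inv]
    rw [Finset.sum_congr rfl h3, ← Finset.mul_sum]
    have h4 : ∑ m ∈ Ioc k (n + M), ((m : ℝ) ^ 2)⁻¹ ≤ (k : ℝ)⁻¹ := by
      rcases le_total k (n + M) with h | h
      · have h5 := sum_Ioc_inv_sq_le_sub (α := ℝ) (k := k) (n := n + M) (by omega) h
        have h6 : (0 : ℝ) ≤ ((n + M : ℕ) : ℝ)⁻¹ := by positivity
        linarith
      · rw [Finset.Ioc_eq_empty (by omega)]
        simp
    rw [div_eq_mul_inv]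
    exact mul_le_mul_of_nonneg_left h4 (sq_nonneg _)
  rw [Finset.sum_const, Finset.sum_const, Nat.card_Icc, Nat.add_sub_cancel, nsmul_eq_mul,
    nsmul_eq_mul, sq (M : ℝ), mul_assoc]
  exact mul_le_mul_of_nonneg_left (mul_le_mul_of_nonneg_left h2 (Nat.cast_nonneg _))
    (Nat.cast_nonneg _)

theorem freq_diff (k M r n : ℕ) (hk : 1 ≤ k) (hn : 1 ≤ n) :
    |freq M r n - freqq k.factorial M r n| ≤ (M : ℝ) ^ 2 * (1 + M) ^ 2 / k := by
  have hn0 : (0 : ℝ) < n := by exact_mod_cast hn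
  have hn1 : (1 : ℝ) ≤ n := by exact_mod_cast hn
  have hk0 : (0 : ℝ) < k := by exact_mod_cast hk
  set S := (Icc 1 n ×ˢ Icc 1 n).filter (fun x : ℕ × ℕ => Z M x.1 x.2 = r) with hS
  set T := (Icc 1 n ×ˢ Icc 1 n).filter (fun x : ℕ × ℕ => Zq k.factorial M x.1 x.2 = r) with hT
  have h1 : S ⊆ T ∪ Bad k M n := by
    intro x hx
    rw [hS, mem_filter] at hx
    rw [mem_union]
    by_cases h : Zq k.factorial M x.1 x.2 = r
    · left; rw [hT, mem_filter]; exact ⟨hx.1, h⟩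
    · right
      unfold Bad
      rw [mem_filter]
      exact ⟨hx.1, fun h' => h (by rw [← h', hx.2])⟩
  have h2 : T ⊆ S ∪ Bad k M n := by
    intro x hx
    rw [hT, mem_filter] at hx
    rw [mem_union]
    by_cases h : Z M x.1 x.2 = r
    · left; rw [hS, mem_filter]; exact ⟨hx.1, h⟩
    · right
      unfold Bad
      rw [mem_filter]
      exact ⟨hx.1, fun h' => h (by rw [h', hx.2])⟩
  have h3 : (S.card : ℝ) ≤ T.card + (Bad k M n).card := by
    exact_mod_cast (Finset.card_le_card h1).trans (Finset.card_union_le _ _)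
  have h4 : (T.card : ℝ) ≤ S.card + (Bad k M n).card := by
    exact_mod_cast (Finset.card_le_card h2).trans (Finset.card_union_le _ _)
  have h5 := bad_card k M n hk
  have h6 : freq M r n - freqq k.factorial M r n = ((S.card : ℝ) - T.card) / (n : ℝ) ^ 2 := by
    unfold freq freqq
    rw [← sub_div]
  rw [h6, abs_div, abs_of_pos (show (0 : ℝ) < (n : ℝ) ^ 2 by positivity),
    div_le_iff₀ (by positivity)]
  have h7 : |(S.card : ℝ) - T.card| ≤ (Bad k M n).card := by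
    rw [abs_le]; constructor <;> linarith
  refine h7.trans (h5.trans ?_)
  have h8 : ((n : ℝ) + M) ^ 2 ≤ ((1 + M) * n) ^ 2 := by
    apply pow_le_pow_left₀ (by positivity)
    have : (M : ℝ) ≤ M * n := le_mul_of_one_le_right (Nat.cast_nonneg _) hn1
    linarith
  have h9 : (M : ℝ) ^ 2 * (((n : ℝ) + M) ^ 2 / k) ≤ (M : ℝ) ^ 2 * (((1 + M) * n) ^ 2 / k) := by
    apply mul_le_mul_of_nonneg_left _ (sq_nonneg _)
    exact div_le_div_of_nonneg_right h8 hk0.le
  refine h9.trans (le_of_eq ?_)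
  ring

theorem exists_limit (M r : ℕ) : ∃ p : ℝ, Tendsto (freq M r) atTop (𝓝 p) ∧
    ∀ k : ℕ, 1 ≤ k → |p - dP k.factorial M r| ≤ (M : ℝ) ^ 2 * (1 + M) ^ 2 / k := by
  set K : ℝ := (M : ℝ) ^ 2 * (1 + M) ^ 2 with hK
  have hK0 : 0 ≤ K := by positivity
  have hc : CauchySeq (freq M r) := by
    rw [Metric.cauchySeq_iff']
    intro ε hε
    obtain ⟨k, hk⟩ := exists_nat_gt (K / (ε / 4))
    have hk0 : (0 : ℝ) < k := lt_of_le_of_lt (by positivity) hk
    have hk1 : 1 ≤ k := by exact_mod_cast hk0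
    have hKk : K / k < ε / 4 := by
      rw [div_lt_iff₀ hk0]
      rw [div_lt_iff₀ (by linarith)] at hk
      linarith
    have ht := tendsto_freqq k.factorial M r (Nat.factorial_pos k)
    rw [Metric.tendsto_atTop] at ht
    obtain ⟨N, hN⟩ := ht (ε / 4) (by linarith)
    refine ⟨max N 1, fun n hn => ?_⟩
    have e1 := hN n ((le_max_left _ _).trans hn)
    have e2 := hN (max N 1) (le_max_left _ _)
    have e3 := freq_diff k M r n hk1 ((le_max_right _ _).trans hn)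
    have e4 := freq_diff k M r (max N 1) hk1 (le_max_right _ _)
    rw [Real.dist_eq] at e1 e2 ⊢
    rw [abs_lt] at e1 e2 ⊢
    rw [abs_le] at e3 e4
    constructor <;> linarith [e1.1, e1.2, e2.1, e2.2, e3.1, e3.2, e4.1, e4.2]
  obtain ⟨p, hp⟩ := cauchySeq_tendsto_of_complete hc
  refine ⟨p, hp, fun k hk => ?_⟩
  have h1 := (hp.sub (tendsto_freqq k.factorial M r (Nat.factorial_pos k))).abs
  refine le_of_tendsto h1 ?_
  filter_upwards [eventually_ge_atTop 1] with n hn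
  exact freq_diff k M r n hk hn

/-- The limits `p_M(r)` exist, and the variance of the limit distribution is at most `24 M²`. -/
theorem result : ∃ p : ℕ → ℕ → ℝ, (∀ M r : ℕ, Tendsto (freq M r) atTop (𝓝 (p M r))) ∧
    ∀ M : ℕ, variance (M ^ 2) (p M) ≤ 24 * (M : ℝ) ^ 2 := by
  choose p hp1 hp2 using exists_limit
  refine ⟨p, hp1, fun M => ?_⟩
  have h1 : ∀ r, Tendsto (fun k : ℕ => dP k.factorial M r) atTop (𝓝 (p M r)) := by
    intro r
    rw [tendsto_iff_norm_sub_tendsto_zero]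
    have h2 : Tendsto (fun k : ℕ => (M : ℝ) ^ 2 * (1 + M) ^ 2 / k) atTop (𝓝 0) :=
      tendsto_const_div_atTop_nhds_zero_nat _
    refine squeeze_zero' (Eventually.of_forall fun _ => norm_nonneg _) ?_ h2
    filter_upwards [eventually_ge_atTop 1] with k hk
    rw [Real.norm_eq_abs, abs_sub_comm]
    exact hp2 M r k hk
  have h2 : Tendsto (fun k : ℕ => variance (M ^ 2) (dP k.factorial M)) atTop
      (𝓝 (variance (M ^ 2) (p M))) := by
    unfold variance
    refine Tendsto.sub ?_ ?_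
    · exact tendsto_finsetSum _ fun r _ => (h1 r).const_mul _
    · exact (tendsto_finsetSum _ fun r _ => (h1 r).const_mul _).pow 2
  exact le_of_tendsto' h2 fun k => variance_dP k.factorial M (Nat.factorial_pos k)

end Pool.Agent.Results.MP_143e3a_nt.VarianceBound
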